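import Pool.Agent.Q36.QD.FibC

/-!
# Restricted quasi-diagonals which are not elliptic curves

For every complex elliptic curve `E : y² = x³ + A x + B` there is a restricted quasi-diagonal
`S ⊂ E ^ 4` over `(E, 𝒪(e))` whose normalization has genus at least two: the curve of the points
`(P, Q, -P, -Q)` with `(x(P) - t) (x(Q) - t) = c`, for general constants `t`, `c`.
-/

namespace Pool.Agent.Results.MP_6276a2_ag.RestrictedHigherGenus

open Q36.QD

/-- For every elliptic curve `E : y² = x³ + A x + B` over `ℂ` there is an irreducible reduced curve
`S ⊂ E ^ 4`, with function field `K` and generic point `P`, which is a quasi-diagonal over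
`(E, 𝒪(e))`, where `e` is the origin, which is restricted (the summation map is constant on `S`) and
whose normalization has genus at least two. In particular `S` is not a smooth curve of genus one. -/
theorem result {A B : ℂ} (hD : 4 * A ^ 3 + 27 * B ^ 2 ≠ 0) :
    ∃ (K : Type) (_ : Field K) (_ : Algebra ℂ K) (P : Fin 4 → EK A B K),
      IsQuasiDiagonal (Finsupp.single 0 1) P ∧ SumConst P ∧ 2 ≤ geomGenus K :=
  exists_restricted hD

end Pool.Agent.Results.MP_6276a2_ag.RestrictedHigherGenus
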